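import Pool.Agent.MP_61df98_mp.H93.Det15

set_option autoImplicit false

open Polynomial

namespace Pool.Agent.Results.MP_61df98_mp.OddSingular

/-- The Floquet matrix `L_V` at quasimomentum `z = 1` (indices `0, …, q-1`, `q ≥ 3`). -/
def floquetMatrix {R : Type} [CommRing R] {q : ℕ} (V : Fin q → R) : Matrix (Fin q) (Fin q) R :=
  Matrix.of fun i j =>
    if i = j then V i else if (i.val + 1) % q = j.val ∨ (j.val + 1) % q = i.val then 1 else 0

/-- `D_V(λ) = det (L_V - λ I)` as a polynomial in `λ`. -/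
noncomputable def charDet {R : Type} [CommRing R] {q : ℕ} (V : Fin q → R) : R[X] :=
  ((floquetMatrix V).map C - (X : R[X]) • (1 : Matrix (Fin q) (Fin q) R[X])).det

/-- The generic antisymmetric potential `U = (u_1, …, u_m, (0), -u_m, …, -u_1)`. -/
noncomputable def antisym (q : ℕ) : Fin q → MvPolynomial (Fin (q / 2)) ℂ := fun j =>
  if h : j.val < q / 2 then MvPolynomial.X ⟨j.val, h⟩
  else if h' : q - 1 - j.val < q / 2 then -MvPolynomial.X ⟨q - 1 - j.val, h'⟩ else 0

/-- The generator `p'_k`. -/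
noncomputable def gen (q k : ℕ) : MvPolynomial (Fin (q / 2)) ℂ :=
  (-1) ^ (q + k) *
    (charDet (antisym q) - charDet (0 : Fin q → MvPolynomial (Fin (q / 2)) ℂ)).coeff (q - 2 * k)

/-- The ideal `I'`. -/
noncomputable def isoIdeal (q : ℕ) : Ideal (MvPolynomial (Fin (q / 2)) ℂ) :=
  Ideal.span {p | ∃ k, 1 ≤ k ∧ k ≤ q / 2 ∧ p = gen q k}

/-- The multiplicity of the point `a`: the complex dimension of `(ℂ[u] / I)` localized at `m_a`. -/
noncomputable def mult {m : ℕ} (I : Ideal (MvPolynomial (Fin m) ℂ)) (a : Fin m → ℂ) : Cardinal :=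
  Module.rank ℂ (Localization (Algebra.algebraMapSubmonoid (MvPolynomial (Fin m) ℂ ⧸ I)
    (MvPolynomial.vanishingIdeal ℂ {a}).primeCompl))

theorem charDet_map {R S : Type} [CommRing R] [CommRing S] {q : ℕ} (f : R →+* S)
    (V : Fin q → R) : (charDet V).map f = charDet (fun j => f (V j)) := by
  rw [charDet, charDet, ← Polynomial.coe_mapRingHom, RingHom.map_det]
  congr 1
  ext i j : 1
  simp only [RingHom.mapMatrix_apply, Matrix.map_apply, Matrix.sub_apply, Matrix.smul_apply,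
    floquetMatrix, Matrix.of_apply, Matrix.one_apply, smul_eq_mul, coe_mapRingHom]
  split_ifs <;> simp

theorem map_gen {S : Type} [CommRing S] (q k : ℕ) (f : MvPolynomial (Fin (q / 2)) ℂ →+* S)
    (h : charDet (fun j => f (antisym q j)) = charDet (0 : Fin q → S)) : f (gen q k) = 0 := by
  rw [gen, map_mul, ← Polynomial.coeff_map, Polynomial.map_sub, charDet_map, charDet_map, h]
  have : (fun j : Fin q => f ((0 : Fin q → MvPolynomial (Fin (q / 2)) ℂ) j)) = 0 := by
    ext j; simp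
  rw [this]
  simp

theorem one_lt_mult {m : ℕ} (I : Ideal (MvPolynomial (Fin m) ℂ)) (a t : Fin m → ℂ) (j : Fin m)
    (ht : t j ≠ 0)
    (hI : ∀ p ∈ I, MvPolynomial.aeval
      (fun i => (TrivSqZeroExt.inl (a i) + TrivSqZeroExt.inr (t i) : DualNumber ℂ)) p = 0) :
    a ∈ MvPolynomial.zeroLocus ℂ I ∧ 1 < mult I a := by
  set φ : MvPolynomial (Fin m) ℂ →ₐ[ℂ] DualNumber ℂ := MvPolynomial.aeval
      (fun i => (TrivSqZeroExt.inl (a i) + TrivSqZeroExt.inr (t i) : DualNumber ℂ)) with hφ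
  have hfst : ∀ p, (φ p).fst = MvPolynomial.aeval a p := by
    intro p
    have : (TrivSqZeroExt.fstHom ℂ ℂ ℂ).comp φ = MvPolynomial.aeval a := by
      ext i
      simp [hφ]
    exact congrArg (fun g : MvPolynomial (Fin m) ℂ →ₐ[ℂ] ℂ => g p) this
  refine ⟨fun p hp => ?_, ?_⟩
  · rw [← hfst, hI p hp]; rfl
  · set M := Algebra.algebraMapSubmonoid (MvPolynomial (Fin m) ℂ ⧸ I)
      (MvPolynomial.vanishingIdeal ℂ {a}).primeCompl with hM
    set φ1 : (MvPolynomial (Fin m) ℂ ⧸ I) →ₐ[ℂ] DualNumber ℂ := Ideal.Quotient.liftₐ I φ hI with hφ1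
    have hunit : ∀ y : M, IsUnit (φ1 y) := by
      rintro ⟨y, p, hp, rfl⟩
      have h1 : φ1 (algebraMap _ (MvPolynomial (Fin m) ℂ ⧸ I) p) = φ p := rfl
      change IsUnit (φ1 (algebraMap _ (MvPolynomial (Fin m) ℂ ⧸ I) p))
      rw [h1, TrivSqZeroExt.isUnit_iff_isUnit_fst, hfst, isUnit_iff_ne_zero]
      intro h0
      exact hp ((MvPolynomial.mem_vanishingIdeal_singleton_iff a p).2 h0)
    set ψ : Localization M →ₐ[ℂ] DualNumber ℂ :=
      IsLocalization.liftAlgHom (S := Localization M) (M := M) (f := φ1) hunit with hψ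
    set v : Fin 2 → Localization M := ![1, algebraMap (MvPolynomial (Fin m) ℂ ⧸ I) _
      (Ideal.Quotient.mk I (MvPolynomial.X j))] with hv
    have hψv : ψ (algebraMap (MvPolynomial (Fin m) ℂ ⧸ I) _
        (Ideal.Quotient.mk I (MvPolynomial.X j))) =
        TrivSqZeroExt.inl (a j) + TrivSqZeroExt.inr (t j) := by
      simp [hψ, hφ1, hφ]
    have hli : LinearIndependent ℂ v := by
      rw [hv, LinearIndependent.pair_iff]
      intro s r hsr
      have h2 := congrArg ψ hsr
      rw [map_add, map_smul, map_smul, map_one, hψv, map_zero] at h2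
      have h3 := congrArg TrivSqZeroExt.snd h2
      have h4 := congrArg TrivSqZeroExt.fst h2
      simp [ht] at h3
      simp [h3] at h4
      exact ⟨h4, h3⟩
    have := hli.cardinal_le_rank
    simp only [Cardinal.mk_fintype, Fintype.card_fin, Nat.cast_ofNat] at this
    exact lt_of_lt_of_le Cardinal.one_lt_two this

theorem charDet15 {S : Type} [CommRing S] (a b e : S) (h1 : a ^ 2 + b ^ 2 = 0)
    (h2 : b ^ 4 + 2 * a * b + b ^ 2 = 0) (h3 : e ^ 2 = 0) :
    charDet ![a, b, e, -b, -a, a, b, 0, -b, -a, a, b, -e, -b, -a] = charDet (0 : Fin 15 → S) := by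
  have := Pool.Agent.MP_61df98_mp.H93.det15 (C a) (C b) (C e) (X : S[X])
    (by simpa using congrArg C h1) (by simpa [map_ofNat] using congrArg C h2)
    (by rw [← map_pow, h3, map_zero])
  rw [charDet, charDet]
  convert this using 2
  · ext i j : 1
    fin_cases i <;> fin_cases j <;> simp [floquetMatrix]
  · ext i j : 1
    fin_cases i <;> fin_cases j <;> simp [floquetMatrix]

/-- Part (a) fails for `q = 15`: a nonzero point of `V(I')` of multiplicity greater than one. -/
theorem result : ∃ a ∈ MvPolynomial.zeroLocus ℂ (isoIdeal 15),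
    a ≠ 0 ∧ 1 < mult (isoIdeal 15) a := by
  obtain ⟨α, hα⟩ : ∃ α : ℂ, α ^ 2 = 1 - 2 * Complex.I :=
    IsAlgClosed.exists_pow_nat_eq _ (by norm_num)
  have hα0 : α ≠ 0 := by
    rintro rfl
    have := congrArg Complex.re hα
    simp at this
  set β : ℂ := Complex.I * α with hβ
  have h1 : α ^ 2 + β ^ 2 = 0 := by
    rw [hβ, mul_pow, Complex.I_sq]; ring
  have h2 : β ^ 4 + 2 * α * β + β ^ 2 = 0 := by
    rw [hβ]
    linear_combination (α ^ 4 * (Complex.I ^ 2 - 1) + α ^ 2) * Complex.I_sq + α ^ 2 * hα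
  clear_value β
  set a : Fin 7 → ℂ := ![α, β, 0, -β, -α, α, β] with ha
  set t : Fin 7 → ℂ := ![0, 0, 1, 0, 0, 0, 0] with ht
  have key := one_lt_mult (m := 7) (isoIdeal 15) a t 2 (by simp [ht]) (by
    intro p hp
    refine (Ideal.span_le (I := RingHom.ker (MvPolynomial.aeval
      (fun i => (TrivSqZeroExt.inl (a i) + TrivSqZeroExt.inr (t i) : DualNumber ℂ)) :
        MvPolynomial (Fin 7) ℂ →ₐ[ℂ] DualNumber ℂ))).2 ?_ hp
    rintro _ ⟨k, -, -, rfl⟩
    refine map_gen 15 k (MvPolynomial.aeval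
      (fun i => (TrivSqZeroExt.inl (a i) + TrivSqZeroExt.inr (t i) : DualNumber ℂ)) :
        MvPolynomial (Fin 7) ℂ →ₐ[ℂ] DualNumber ℂ).toRingHom ?_
    rw [← charDet15 (S := DualNumber ℂ) (TrivSqZeroExt.inl α) (TrivSqZeroExt.inl β)
      (TrivSqZeroExt.inr 1)]
    · congr 1
      ext1 j
      fin_cases j <;> simp [antisym, ha, ht]
    · have := congrArg (algebraMap ℂ (DualNumber ℂ)) h1
      rw [map_add, map_pow, map_pow, map_zero] at this
      exact this
    · have := congrArg (algebraMap ℂ (DualNumber ℂ)) h2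
      rw [map_add, map_add, map_pow, map_pow, map_mul, map_mul, map_ofNat, map_zero] at this
      exact this
    · rw [sq, TrivSqZeroExt.inr_mul_inr])
  refine ⟨a, key.1, fun h => hα0 ?_, key.2⟩
  exact congrFun h (0 : Fin 7)

end Pool.Agent.Results.MP_61df98_mp.OddSingular
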